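import Pool.Agent.H79Iso.Main

/-!
# The isomorphism problem for self-similar groups generated by finite automata is undecidable

`Automaton`: a finite invertible automaton with states `Fin m` (`0 < m`) over the alphabet `Fin n`
(`2 ≤ n`). `Automaton.perm s`: the permutation of the set of all finite words given by the state `s`.
`Automaton.group`: the group `G(A)` generated by the states. `Automaton.table`: the list of rows
(one for each state) of pairs (next state, output), the finite tables of the automaton as a list of
lists of pairs of natural numbers. See `Pool/Agent/H79Iso/Defs.lean`.

Proof. Let `F` be a free group of finite rank at least two, embedded in `SL₂(ℤ)`, and let
`K = ℤ² ⋊ F`. `K` acts by affine maps on pairs of 2-adic integers, so on the 4-ary tree; the sections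
of an affine map have the same linear part. For a finite list `rs` of words in the generators of `F`
let `P(rs)` be the group of all `(g, h)` in `K × K` whose linear parts are congruent modulo the normal
closure of `rs`. The group `P(rs)` is generated by the states of a finite automaton over 16 letters:
the states are the pairs of affine maps which have the same generator of `F` as linear parts
(translations in a finite set closed under sections), and the pairs `(g, 1)` where `g` is a product
of such maps along a word in `rs`. The table of the automaton is computable from `rs`.
If the group presented by `rs` is trivial then `P(rs) = K × K`. If it is nontrivial then `P(rs)` is
not isomorphic to `K × K`: `K` is not a product of two nontrivial commuting subgroups (centralizers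
in `SL₂(ℤ)` of matrices which are not scalar are abelian), hence a subgroup of `K × K` which projects
onto both factors and is isomorphic to `K × K` is all of `K × K`. Triviality of finitely presented
groups with a fixed number of generators is undecidable (Adian, Rabin); here this is taken from
the files of `Pool/Agent/Helper270` (Novikov-Boone) and `Pool/Agent/TH111`.

The proof gives more, see `Pool.Agent.H79Iso.fixed`: there is a fixed automaton `B` over 16 letters
such that no algorithm decides, for automata `A` over 16 letters, whether `G(A) ≅ G(B)`.
-/

set_option autoImplicit false

namespace Pool.Agent.Results.MP_56d946_al.Undecidable

open Pool.Agent.H79Iso

/-- The isomorphism problem for self-similar groups generated by finite automata is undecidable: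
there is no partial recursive function `f` which halts on the tables of any two finite invertible
automata `A`, `B` and decides whether `G(A)` and `G(B)` are isomorphic. -/
theorem result : ¬ ∃ f : List (List (ℕ × ℕ)) × List (List (ℕ × ℕ)) →. Bool, Partrec f ∧
    ∀ A B : Automaton, ∃ b ∈ f (A.table, B.table), (b = true ↔ Nonempty (A.group ≃* B.group)) :=
  main

end Pool.Agent.Results.MP_56d946_al.Undecidable
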